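import Pool.Agent.ACK.StmtsC

/-! helper60, squad ACK, row NRM -/

set_option autoImplicit false

namespace Pool.Agent.ACK.H60

theorem nrm_bl (C C' : ℕ → List ℕ) (f : Tk → Tk) : ∀ b : List Tk,
    (∀ t ∈ b, bk C' (f t) = bk C t) → BL C' (b.map f) = BL C b
  | [], _ => rfl
  | t :: b, h => by
      have h1 := nrm_bl C C' f b (fun u hu => h u (List.mem_cons_of_mem _ hu))
      have h2 := h t List.mem_cons_self
      unfold BL at h1 ⊢
      rw [List.map_cons, List.flatMap_cons, List.flatMap_cons, h1, h2]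

theorem nrm (h1 : C.TrnStmt) (h2 : C.NraStmt) : C.NrmStmt := by
  intro c C b s hs
  obtain ⟨g, φ, hg, h6, hn⟩ := h2 b hs.cw.tw hs.len
  obtain ⟨C', hC', hb, hT⟩ := h1 C b g φ hs.cw hg
  have hB : BL C' (b.map (fun t => (g t.1, xor (φ t.1) t.2))) = BL C b :=
    nrm_bl C C' (fun t => (g t.1, xor (φ t.1) t.2)) b (fun t ht => (hb t ht).1)
  have hgp : ∀ k, gp c C' (b.map (fun t => (g t.1, xor (φ t.1) t.2))) k = gp c C b k := by
    intro k
    unfold gp
    rw [← List.map_take, nrm_bl C C' (fun t => (g t.1, xor (φ t.1) t.2)) (b.take (k + 1))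
      (fun t ht => (hb t (List.mem_of_mem_take ht)).1)]
  refine ⟨C', b.map (fun t => (g t.1, xor (φ t.1) t.2)), hB,
    ⟨?_, hC', (hT s hs.ty), ?_, ?_, ?_, ?_, ?_⟩, hn, ?_⟩
  · rw [hB]
    exact hs.kn
  · rw [List.length_map]
    exact hs.len
  · intro k hk q
    rw [hB, hgp]
    exact hs.gb k hk q
  · rw [hB]
    exact hs.cs
  · rw [hB]
    exact hs.co
  · rw [hB]
    exact hs.sm
  · intro t ht
    obtain ⟨u, hu, rfl⟩ := List.mem_map.1 ht
    exact h6 u hu

end Pool.Agent.ACK.H60
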