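import Pool.Agent.ACK.StmtsA

/-!
# ACK, row SIZ: counting the circles
-/

set_option autoImplicit false

namespace Pool.Agent.ACK.H60

open Pool.Agent.ACK

theorem siz (h1 : ClsStmt) : SizStmt := by
  classical
  intro n _ w s hG hne
  obtain ⟨hA, hB⟩ := h1 n w s hG hne
  have : Finite (Quot (CR w s)) := Finite.of_surjective (Quot.mk (CR w s)) Quot.mk_surjective
  have : Fintype (Quot (CR w s)) := Fintype.ofFinite _
  obtain ⟨W, hW⟩ : ∃ W : ZMod n → ℕ, ∀ p, W p = if ∃ q, Bg w s p q then 3 else 2 :=
    ⟨_, fun _ => rfl⟩
  have hW2 : ∀ p, 2 ≤ W p := by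
    intro p
    rw [hW]
    split_ifs <;> omega
  have hW3 : ∀ p q, Bg w s p q → W p = 3 := by
    intro p q h
    rw [hW, if_pos ⟨q, h⟩]
  have htot : ∑ p, W p = 2 * n + Nat.card {p : ZMod n // ∃ q, Bg w s p q} := by
    have e : ∀ p, W p = 2 + (if ∃ q, Bg w s p q then 1 else 0) := by
      intro p
      rw [hW]
      split_ifs <;> rfl
    rw [Finset.sum_congr rfl (fun p _ => e p), Finset.sum_add_distrib, Finset.sum_const,
      Finset.card_univ, ZMod.card, smul_eq_mul, Nat.mul_comm, Finset.sum_boole,
      Nat.card_eq_fintype_card, Fintype.card_subtype]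
    rfl
  have hfib : ∑ p, W p =
      ∑ c : Quot (CR w s), ∑ p ∈ Finset.univ.filter (fun p => cl w s p = c), W p :=
    (Finset.sum_fiberwise _ _ _).symm
  have hsub : ∀ (S : Finset (ZMod n)) (c : Quot (CR w s)), (∀ p ∈ S, cl w s p = c) →
      ∑ p ∈ S, W p ≤ ∑ p ∈ Finset.univ.filter (fun p => cl w s p = c), W p := by
    intro S c h
    apply Finset.sum_le_sum_of_subset
    intro p hp
    rw [Finset.mem_filter]
    exact ⟨Finset.mem_univ _, h p hp⟩
  have h6 : ∀ c : Quot (CR w s),
      6 ≤ ∑ p ∈ Finset.univ.filter (fun p => cl w s p = c), W p := by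
    intro c
    obtain ⟨p, rfl⟩ := Quot.exists_rep c
    by_cases hp : ∃ q, Bg w s p q
    · obtain ⟨q, hq⟩ := hp
      obtain ⟨hqp, hr⟩ := hA p q hq
      have hpq : p ≠ q := hq.1
      have h := hsub {p, q} (Quot.mk _ p) (by
        intro r hr'
        rw [Finset.mem_insert, Finset.mem_singleton] at hr'
        exact (hr r).2 hr')
      rw [Finset.sum_pair hpq, hW3 p q hq, hW3 q p hqp] at h
      exact h
    · have hp' : ∀ q, ¬ Bg w s p q := fun q hq => hp ⟨q, hq⟩
      obtain ⟨q, r, hnd, hq, hr⟩ := hB p hp'
      have h := hsub {p, q, r} (Quot.mk _ p) (by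
        intro t ht
        rw [Finset.mem_insert, Finset.mem_insert, Finset.mem_singleton] at ht
        rcases ht with rfl | rfl | rfl
        · rfl
        · exact hq
        · exact hr)
      simp only [List.nodup_cons, List.mem_cons, List.not_mem_nil, or_false, not_or] at hnd
      have hpn : p ∉ ({q, r} : Finset (ZMod n)) := by
        rw [Finset.mem_insert, Finset.mem_singleton]
        rintro (e | e)
        · exact hnd.1.1 e
        · exact hnd.1.2 e
      rw [Finset.sum_insert hpn, Finset.sum_pair hnd.2.1] at h
      have a1 := hW2 p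
      have a2 := hW2 q
      have a3 := hW2 r
      omega
  have hnc : nc w s = Fintype.card (Quot (CR w s)) := Nat.card_eq_fintype_card
  constructor
  · rw [← htot, hfib, hnc]
    calc 6 * Fintype.card (Quot (CR w s)) = ∑ _c : Quot (CR w s), 6 := by
          rw [Finset.sum_const, Finset.card_univ, smul_eq_mul, Nat.mul_comm]
      _ ≤ _ := Finset.sum_le_sum fun c _ => h6 c
  · rintro ⟨p, q, r, t, hnd, hq, hr, ht⟩
    rw [← htot, hfib, hnc]
    have h8 : 8 ≤ ∑ u ∈ Finset.univ.filter (fun u => cl w s u = cl w s p), W u := by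
      have h := hsub {p, q, r, t} (cl w s p) (by
        intro u hu
        simp only [Finset.mem_insert, Finset.mem_singleton] at hu
        rcases hu with rfl | rfl | rfl | rfl
        · rfl
        · exact hq.symm
        · exact hr.symm
        · exact ht.symm)
      simp only [List.nodup_cons, List.mem_cons, List.not_mem_nil, or_false, not_or] at hnd
      have hpn : p ∉ ({q, r, t} : Finset (ZMod n)) := by
        simp only [Finset.mem_insert, Finset.mem_singleton, not_or]
        exact hnd.1
      have hqn : q ∉ ({r, t} : Finset (ZMod n)) := by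
        simp only [Finset.mem_insert, Finset.mem_singleton, not_or]
        exact hnd.2.1
      rw [Finset.sum_insert hpn, Finset.sum_insert hqn, Finset.sum_pair hnd.2.2.1] at h
      have a1 := hW2 p
      have a2 := hW2 q
      have a3 := hW2 r
      have a4 := hW2 t
      omega
    calc 6 * Fintype.card (Quot (CR w s)) + 2 =
          ∑ c : Quot (CR w s), (6 + if c = cl w s p then 2 else 0) := by
          rw [Finset.sum_add_distrib, Finset.sum_const, Finset.card_univ, smul_eq_mul,
            Nat.mul_comm, Finset.sum_ite_eq' Finset.univ (cl w s p) (fun _ => 2),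
            if_pos (Finset.mem_univ _)]
      _ ≤ _ := Finset.sum_le_sum fun c _ => by
          by_cases hc : c = cl w s p
          · rw [if_pos hc, hc]
            exact h8
          · rw [if_neg hc]
            exact h6 c

end Pool.Agent.ACK.H60
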